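import Pool.Agent.SZG.StmtsM

namespace Pool.Agent.SZG.H57

open scoped BigOperators
open Pool.Agent.THS

theorem nv_le' {K ι : Type} [Field K] [Finite ι] (v : AbsoluteValue K ℝ) (y : ι → K) (i : ι) :
    v (y i) ≤ nv v y := le_ciSup (Set.finite_range fun i => v (y i)).bddAbove i

theorem nv_nonneg' {K ι : Type} [Field K] (v : AbsoluteValue K ℝ) (y : ι → K) : 0 ≤ nv v y :=
  Real.iSup_nonneg fun i => v.nonneg (y i)

theorem nv_pos' {K ι : Type} [Field K] [Finite ι] (v : AbsoluteValue K ℝ) (y : ι → K)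
    (hy : y ≠ 0) : 0 < nv v y := by
  obtain ⟨i, hi⟩ := Function.ne_iff.1 hy
  exact lt_of_lt_of_le (v.pos hi) (nv_le' v y i)

theorem nv_mul_of_cm {K ι : Type} [Field K] [Finite ι] [Nonempty ι] (v : AbsoluteValue K ℝ)
    (y y' : ι → K) (h : CM v y y') : nv v (fun t => y t * y' t) = nv v y * nv v y' := by
  apply le_antisymm
  · refine ciSup_le fun i => ?_
    show v (y i * y' i) ≤ _
    rw [v.map_mul]
    exact mul_le_mul (nv_le' v y i) (nv_le' v y' i) (v.nonneg _) (nv_nonneg' v y)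
  · obtain ⟨p, h1, h2⟩ := h
    calc nv v y * nv v y' = v (y p * y' p) := by rw [v.map_mul, h1, h2]
      _ ≤ nv v (fun t => y t * y' t) := nv_le' v (fun t => y t * y' t) p

theorem nv_const_mul {K ι : Type} [Field K] (v : AbsoluteValue K ℝ) (a : K) (y : ι → K) :
    nv v (fun t => a * y t) = v a * nv v y := by
  unfold nv
  simp only [map_mul]
  rw [Real.mul_iSup_of_nonneg (v.nonneg a)]

theorem caa (hten : TenStmt) (hxub : XubStmt) (hwxc : WxcStmt) (horb : OrbStmt)
    (_hqsa : QsaStmt) : CaaStmt := by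
  intro K I _ _ v g E L0 c e s T x W X Z hqs hwx hna h2 hCM n
  obtain ⟨hW0, -, -, -, hWz, -, -, hWper⟩ := hwxc K I v L0 c e W X hwx
  have hT0 : 0 < nv v (T 0) := nv_pos' v (T 0) (hqs.T0 0)
  set h : I → ℝ := fun i => nv v (T i) / (nv v (T 0) * W i) with hh
  have hden : ∀ i, 0 < nv v (T 0) * W i := fun i => mul_pos hT0 (hwx.pos i)
  have hpos : ∀ i, 0 < h i := fun i => div_pos (nv_pos' v (T i) (hqs.T0 i)) (hden i)
  have hle : ∀ i, h i ≤ 1 := fun i => by
    have h3 := (hxub K I v g E L0 c e s T x W X hqs hwx hna h2 i i).1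
    rw [hh]
    exact (div_le_one (hden i)).2 h3
  have hper : ∀ i j : I, h (i + E • j) = h i := by
    intro i j
    have hm : E • j ∈ L0 := hqs.mem j
    have e1 : nv v (T (i + E • j)) = (v (c (E • j)) * v (e (E • j) i)) * nv v (T i) := by
      have : T (i + E • j) = fun a => (c (E • j) * e (E • j) i) * T i a := by
        funext a
        exact hqs.per _ hm i a
      rw [this, nv_const_mul, v.map_mul]
    have e2 := hWper _ hm i
    have hc : v (c (E • j)) ≠ 0 := (v.pos (hqs.cne _ hm)).ne'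
    have he : v (e (E • j) i) ≠ 0 := (v.pos (hqs.ene _ hm i)).ne'
    show nv v (T (i + E • j)) / (nv v (T 0) * W (i + E • j)) = nv v (T i) / (nv v (T 0) * W i)
    rw [e1, e2]
    have hWi := (hwx.pos i).ne'
    field_simp
  have hvs : 0 < v s := v.pos hqs.s0
  have hquad : ∀ k : ℤ, h (2 • (k • Z)) = h (k • Z) ^ 4 := by
    intro k
    set i : I := k • Z with hi
    have t1 := hten K I v g E L0 c e s T x hqs hna h2 i 0
    have t2 := hten K I v g E L0 c e s T x hqs hna h2 i i
    have t3 := (hxub K I v g E L0 c e s T x W X hqs hwx hna h2 i i).2.2.2.1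
    rw [add_zero, sub_zero, nv_mul_of_cm v _ _ (hCM k)] at t1
    have hcm : CM v (x i) (x i) := by
      obtain ⟨p, hp⟩ := exists_eq_ciSup_of_finite (f := fun t => v (x i t))
      exact ⟨p, hp, hp⟩
    rw [sub_self, nv_mul_of_cm v _ _ hcm, ← two_nsmul] at t2
    -- nv (T i)^4 = nv (T 2i) nv(T0)^3
    have t4 : nv v (T i) ^ 4 = nv v (T (2 • i)) * nv v (T 0) ^ 3 := by
      calc nv v (T i) ^ 4 = (nv v (T i) * nv v (T i)) ^ 2 := by ring
        _ = (v s * (nv v (x i) * nv v (x 0))) ^ 2 := by rw [t1]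
        _ = (v s * (nv v (x i) * nv v (x i))) * (v s * nv v (x 0) ^ 2) := by ring
        _ = (nv v (T (2 • i)) * nv v (T 0)) * nv v (T 0) ^ 2 := by rw [t2, t3]
        _ = _ := by ring
    have hW2 : W (2 • i) = W i ^ 4 := by
      have := hWz 2 i
      have e3 : (2 : ℤ) • i = 2 • i := by
        rw [two_nsmul, two_zsmul]
      rw [e3] at this
      rw [this]
      norm_num
    show nv v (T (2 • i)) / (nv v (T 0) * W (2 • i)) = (nv v (T i) / (nv v (T 0) * W i)) ^ 4
    rw [div_pow, t4, hW2]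
    have := hT0.ne'
    have hWi := (hwx.pos i).ne'
    field_simp
  -- h (2^m • (n•Z)) = h(n•Z)^(4^m)
  have hiter : ∀ m : ℕ, h (2 ^ m • (n • Z)) = h (n • Z) ^ (4 ^ m) := by
    intro m
    induction m with
    | zero => simp
    | succ m ih =>
      have e4 : (2 ^ (m + 1) : ℕ) • (n • Z) = 2 • ((((2 : ℤ) ^ m) * n) • Z) := by
        rw [pow_succ, mul_comm, mul_smul, mul_smul]
        congr 1
        rw [← natCast_zsmul]
        push_cast
        rfl
      have e5 : (((2 : ℤ) ^ m) * n) • Z = (2 ^ m : ℕ) • (n • Z) := by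
        rw [mul_smul, ← natCast_zsmul (n • Z)]
        push_cast
        rfl
      rw [e4, hquad, e5, ih, ← pow_mul, pow_succ]
  have h1 : h (n • Z) = 1 := by
    by_contra hne
    have hlt : h (n • Z) < 1 := lt_of_le_of_ne (hle _) hne
    obtain ⟨a, b, hab, he⟩ := horb I E h hqs.hE hper (n • Z)
    rw [hiter, hiter] at he
    have : (4 : ℕ) ^ a < 4 ^ b := Nat.pow_lt_pow_right (by norm_num) hab
    have h6 := pow_lt_pow_right_of_lt_one₀ (hpos (n • Z)) hlt this
    exact absurd he h6.ne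
  have h7 : nv v (T (n • Z)) / (nv v (T 0) * W (n • Z)) = 1 := h1
  exact (div_eq_one_iff_eq (hden _).ne').1 h7

end Pool.Agent.SZG.H57
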