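import Pool.Agent.SZG.StmtsM

namespace Pool.Agent.SZG.H57

open scoped BigOperators
open Pool.Agent.THS

theorem nv_pos {K : Type} [Field K] {g : ℕ} (v : AbsoluteValue K ℝ) (y : Ch g → K) (hy : y ≠ 0) :
    0 < nv v y := by
  obtain ⟨i, hi⟩ := Function.ne_iff.1 hy
  have h1 : 0 < v (y i) := v.pos hi
  exact lt_of_lt_of_le h1 (le_ciSup (Set.finite_range fun i => v (y i)).bddAbove i)

theorem nv_att {K : Type} [Field K] {g : ℕ} (v : AbsoluteValue K ℝ) (y : Ch g → K) :
    ∃ i, v (y i) = nv v y := exists_eq_ciSup_of_finite (f := fun i => v (y i))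

theorem rle (hq : QsaStmt) (hw : WxcStmt) : RleStmt := by
  intro K I _ _ v θ g E L0 c e s T x W X Z δ A R l L hl hA hR hN
  have hqs := L.qs
  have hwx := L.wx
  have hna := L.na
  set m : I := (2 * (l : ℤ)) • δ with hm
  have hmL : m ∈ L0 := by
    have : m = (l : ℤ) • δ + (l : ℤ) • δ := by
      rw [hm, two_mul, add_smul]
    rw [this]
    exact L0.add_mem hl hl
  obtain ⟨hW0, hXii, hXneg, hXz, hWz, -, -, hWper⟩ := hw K I v L0 c e W X hwx
  have hcm : c m ≠ 0 := hqs.cne m hmL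
  have hem : ∀ i, e m i ≠ 0 := hqs.ene m hmL
  have he0 : e m 0 = 1 := by
    have h := hqs.eadd m hmL 0 0
    rw [add_zero] at h
    have h2 := hem 0
    have h3 : e m 0 * 1 = e m 0 * e m 0 := by rw [mul_one]; exact h
    exact (mul_left_cancel₀ h2 h3).symm
  have hvc : 0 < v (c m) := v.pos hcm
  have hve : 0 < v (e m Z) := v.pos (hem Z)
  have hT0 : 0 < nv v (T 0) := nv_pos v (T 0) (hqs.T0 0)
  obtain ⟨o, ho⟩ := nv_att v (T 0)
  obtain ⟨p, hp⟩ := nv_att v (T Z)
  have hTZ : nv v (T Z) = nv v (T 0) * W Z := by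
    have := L.can 1 0
    simpa using this
  have hWZ : 0 < W Z := hwx.pos Z
  -- first congruence
  have h1 : v (c m - A ^ (4 * (l : ℤ) ^ 2)) ≤ θ * v (c m) := by
    have h := hN 0 l o
    have e1 : (0 : ℤ) • Z + (2 * (l : ℤ)) • δ = m := by rw [zero_smul, zero_add]
    rw [e1] at h
    have e2 : T m o = c m * e m 0 * T 0 o := by
      have := hqs.per m hmL 0 o
      rwa [zero_add] at this
    rw [e2, he0, zero_smul, zero_mul, zpow_zero, mul_one, mul_one, ← sub_mul, v.map_mul, ho,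
      ← hwx.ce m hmL] at h
    have h' : v (c m - A ^ (4 * (l : ℤ) ^ 2)) * nv v (T 0) ≤ (θ * v (c m)) * nv v (T 0) := by
      calc _ ≤ θ * (nv v (T 0) * v (c m)) := h
        _ = _ := by ring
    exact le_of_mul_le_mul_right h' hT0
  have h2 : v (c m * e m Z - A ^ (4 * (l : ℤ) ^ 2) * R ^ (l : ℤ)) ≤ θ * (v (c m) * v (e m Z)) := by
    have h := hN 1 l p
    rw [one_smul, one_mul, ← hm] at h
    have e2 : T (Z + m) p = c m * e m Z * T Z p := hqs.per m hmL Z p
    rw [e2, ← sub_mul, v.map_mul, hp, hTZ, hWper m hmL Z] at h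
    have hpos : 0 < nv v (T 0) * W Z := mul_pos hT0 hWZ
    have h' : v (c m * e m Z - A ^ (4 * (l : ℤ) ^ 2) * R ^ (l : ℤ)) * (nv v (T 0) * W Z)
        ≤ (θ * (v (c m) * v (e m Z))) * (nv v (T 0) * W Z) := by
      calc _ ≤ θ * (nv v (T 0) * (v (c m) * v (e m Z) * W Z)) := h
        _ = _ := by ring
    exact le_of_mul_le_mul_right h' hpos
  have hA4 : A ^ (4 * (l : ℤ) ^ 2) ≠ 0 := zpow_ne_zero _ hA
  set a : K := A ^ (4 * (l : ℤ) ^ 2) with ha
  -- v a = v (c m)
  have hva : v a = v (c m) := by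
    have hlt : v (a - c m) < v (c m) := by
      have : v (a - c m) = v (c m - a) := v.map_sub a (c m)
      rw [this]
      calc _ ≤ θ * v (c m) := h1
        _ < 1 * v (c m) := mul_lt_mul_of_pos_right L.th1 hvc
        _ = v (c m) := one_mul _
    have h3 : a = (a - c m) + c m := by ring
    rw [h3]
    exact IsNonarchimedean.add_eq_right_of_lt hna hlt
  have key : R ^ (l : ℤ) / e m Z - 1
      = ((c m - a) * e m Z - (c m * e m Z - a * R ^ (l : ℤ))) / (a * e m Z) := by
    have := hem Z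
    field_simp
    ring
  rw [key, map_div₀, v.map_mul, hva]
  rw [div_le_iff₀ (mul_pos hvc hve)]
  have h4 : v ((c m - a) * e m Z) ≤ θ * (v (c m) * v (e m Z)) := by
    rw [v.map_mul]
    calc _ ≤ (θ * v (c m)) * v (e m Z) := mul_le_mul_of_nonneg_right h1 hve.le
      _ = _ := by ring
  have h5 : v ((c m - a) * e m Z - (c m * e m Z - a * R ^ (l : ℤ)))
      ≤ max (v ((c m - a) * e m Z)) (v (c m * e m Z - a * R ^ (l : ℤ))) := by
    rw [sub_eq_add_neg]
    refine le_trans (hna _ _) ?_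
    rw [v.map_neg]
  exact le_trans h5 (max_le h4 h2)

end Pool.Agent.SZG.H57
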