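import Pool.Agent.Helper57_SZG.Fin1
import Pool.Agent.Helper57_SZG.RLE
import Pool.Agent.Helper57_SZG.CAA
import Pool.Agent.Helper31_SZG.TBG

namespace Pool.Agent.SZG.H57

theorem final : SzgStatement := fin1 H31.tbg caa rle

end Pool.Agent.SZG.H57
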