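import Pool.Agent.SZG.StmtsQ
import Pool.Agent.ZES.StmtsZ

/-!
# MP_160b6c_nt: the Szpiro ratio bounds the torsion of abelian varieties of every dimension
-/

namespace Pool.Agent.SZG.H57Comb

open scoped BigOperators

/-- The theta series with half-integral characteristic `theta[a/2, b/2](z, tau)`, `a, b` in
`(Z/2)^g` (represented by 0, 1):
the sum over `n` in `Z^g` of `exp(pi i (n+a/2).tau(n+a/2) + 2 pi i (n+a/2).(z+b/2))`. -/
noncomputable def theta {g : ℕ} (τ : Matrix (Fin g) (Fin g) ℂ) (a b : Fin g → ZMod 2)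
    (z : Fin g → ℂ) : ℂ :=
  ∑' n : Fin g → ℤ, Complex.exp
    (Real.pi * Complex.I *
        (∑ i, ∑ j, ((n i : ℂ) + (a i).val / 2) * τ i j * ((n j : ℂ) + (a j).val / 2)) +
      2 * Real.pi * Complex.I * ∑ i, ((n i : ℂ) + (a i).val / 2) * (z i + (b i).val / 2))

/-- `tau` is in the Siegel upper half space: symmetric, with positive definite imaginary part. -/
def Siegel {g : ℕ} (τ : Matrix (Fin g) (Fin g) ℂ) : Prop :=
  τ.transpose = τ ∧ (τ.map Complex.im).PosDef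

/-- The period `p + tau q`. -/
noncomputable def period {g : ℕ} (τ : Matrix (Fin g) (Fin g) ℂ) (p q : Fin g → ℤ) :
    Fin g → ℂ :=
  fun i => (p i : ℂ) + ∑ j, τ i j * (q j : ℂ)

/-- `w` lies in the period lattice `Z^g + tau Z^g`. -/
def InLattice {g : ℕ} (τ : Matrix (Fin g) (Fin g) ℂ) (w : Fin g → ℂ) : Prop :=
  ∃ p q : Fin g → ℤ, w = period τ p q

/-- `x` and `y` have a common coordinate of maximal absolute value at `v`. -/
def CommonMaximum {K ι : Type} [Field K] [NumberField K] (v : NumberField.FinitePlace K)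
    (x y : ι → K) : Prop :=
  ∃ i, v (x i) = (⨆ l, v (x l)) ∧ v (y i) = (⨆ l, v (y l))

/-- The points of projective space with coordinates `x` and `y` are congruent modulo `v^e`: all
`2 x 2` minors are at most `N(v)^(-e) |x|_v |y|_v` (maximum norms). -/
def CongruentMod {K ι : Type} [Field K] [NumberField K] (v : NumberField.FinitePlace K) (e : ℕ)
    (x y : ι → K) : Prop :=
  ∀ i j, v (x i * y j - x j * y i) ≤
    ((Ideal.absNorm v.maximalIdeal.asIdeal : ℝ) ^ e)⁻¹ * ((⨆ l, v (x l)) * (⨆ l, v (y l)))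

/-- `F` is a theta function of order `m` for `Z^g + tau Z^g`, that is a section of the `m`-th power
of the principal polarisation: `F` is entire and
`F(w + p + tau q) = exp(-pi i m q.tau q - 2 pi i m q.w) F(w)`. -/
def IsThetaFunction {g : ℕ} (τ : Matrix (Fin g) (Fin g) ℂ) (m : ℕ) (F : (Fin g → ℂ) → ℂ) : Prop :=
  Differentiable ℂ F ∧ ∀ (w : Fin g → ℂ) (p q : Fin g → ℤ),
    F (w + period τ p q) = Complex.exp
      (-(Real.pi * Complex.I * m * ∑ i, ∑ j, (q i : ℂ) * τ i j * (q j : ℂ))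
        - 2 * Real.pi * Complex.I * m * ∑ i, (q i : ℂ) * w i) * F w

open Pool.Agent.THS in
theorem theta_eq {g : ℕ} (τ : Matrix (Fin g) (Fin g) ℂ) (a b : Fin g → ZMod 2)
    (w : Fin g → ℂ) : Vab τ a b w = theta τ a b ((2 : ℂ) • w) := by
  unfold Vab theta ths tht hv
  refine tsum_congr fun n => ?_
  congr 1
  congr 1
  · congr 1
    refine Finset.sum_congr rfl fun i _ => Finset.sum_congr rfl fun j _ => ?_
    push_cast
    rfl
  · congr 1
    refine Finset.sum_congr rfl fun i _ => ?_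
    simp only [Pi.smul_apply, smul_eq_mul]
    push_cast
    ring

open Pool.Agent.SZG in
theorem gam_eq {g : ℕ} (τ : Matrix (Fin g) (Fin g) ℂ) (z : Fin g → ℂ) (l : ℕ) (k : ℤ)
    (p q : Fin g → ℤ) :
    gam τ z l (k, p, q) = (k : ℂ) • z + (1 / (l : ℂ)) • period τ p q := by
  funext r
  simp only [gam, period, Pi.add_apply, Pi.smul_apply, smul_eq_mul]
  ring

open Pool.Agent.THS in
theorem inLat_iff {g : ℕ} (τ : Matrix (Fin g) (Fin g) ℂ) (z : Fin g → ℂ) (N : ℕ) :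
    InLattice τ ((N : ℂ) • z) ↔ InLat τ (fun i => (N : ℂ) * z i) := by
  constructor
  · rintro ⟨p, q, h⟩
    exact ⟨p, q, fun i => by have := congrFun h i; simpa [period] using this⟩
  · rintro ⟨p, q, h⟩
    exact ⟨p, q, by funext i; simpa [period] using h i⟩

open Pool.Agent.THS in
theorem inLat_iff' {g : ℕ} (τ : Matrix (Fin g) (Fin g) ℂ) (w : Fin g → ℂ) :
    InLattice τ w ↔ InLat τ w := by
  constructor
  · rintro ⟨p, q, h⟩
    exact ⟨p, q, fun i => by have := congrFun h i; simpa [period] using this⟩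
  · rintro ⟨p, q, h⟩
    exact ⟨p, q, by funext i; simpa [period] using h i⟩

open Pool.Agent.ZES in
theorem isTheta_iff {g : ℕ} (τ : Matrix (Fin g) (Fin g) ℂ) (m : ℕ) (F : (Fin g → ℂ) → ℂ) :
    IsThetaFunction τ m F ↔ F ∈ RR τ m := Iff.rfl

/-- The abelian subvarieties of `C^g / (Z^g + tau Z^g)`: complex subspaces `W` of `C^g` which are
spanned over the reals by the periods in `W`. -/
def IsAbelianSubvariety {g : ℕ} (τ : Matrix (Fin g) (Fin g) ℂ) (W : Submodule ℂ (Fin g → ℂ)) :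
    Prop :=
  ∀ w ∈ W, w ∈ Submodule.span ℝ {u : Fin g → ℂ | u ∈ W ∧ InLattice τ u}

theorem subav_iff {g : ℕ} (τ : Matrix (Fin g) (Fin g) ℂ) (W : Submodule ℂ (Fin g → ℂ)) :
    Pool.Agent.ZES.SubAV τ W ↔ IsAbelianSubvariety τ W := by
  unfold Pool.Agent.ZES.SubAV IsAbelianSubvariety
  have h : {u : Fin g → ℂ | u ∈ W ∧ InLattice τ u}
      = {u : Fin g → ℂ | u ∈ W ∧ Pool.Agent.THS.InLat τ u} := by
    ext u
    simp only [Set.mem_setOf_eq, inLat_iff']
  rw [h]

/-- **The Szpiro ratio bounds the torsion of abelian varieties of every dimension.** -/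
theorem result_of (hs : Pool.Agent.SZG.Szg3Statement) (hz : Pool.Agent.ZES.ZetStmt)
    (g : ℕ) (σ : ℝ) (G : ℕ → ℕ) : ∃ l : ℕ, l.Prime ∧ Odd l ∧ ∀ d : ℕ, ∃ B : ℕ,
    ∀ (K : Type) [Field K] [NumberField K], Module.finrank ℚ K ≤ d →
    ∀ (φ : K →+* ℂ) (τ : Matrix (Fin g) (Fin g) ℂ), Siegel τ →
    -- a torsion point `z` of the abelian variety `C^g / (Z^g + tau Z^g)`
    ∀ z : Fin g → ℂ, (∃ N : ℕ, 0 < N ∧ InLattice τ ((N : ℂ) • z)) →
    -- the points `k z + (p + tau q)/l`, in the projective embedding by `theta[a/2, b/2](2 z)`,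
    -- are `K`-rational
    ∀ x : ℤ → (Fin g → ℤ) → (Fin g → ℤ) → (Fin g → ZMod 2) × (Fin g → ZMod 2) → K,
    (∀ k p q, x k p q ≠ 0) →
    (∀ k p q, ∃ μ : ℂ, ∀ ab, φ (x k p q ab)
      = μ * theta τ ab.1 ab.2 ((2 : ℂ) • ((k : ℂ) • z + (1 / (l : ℂ)) • period τ p q))) →
    -- places `v` of bad reduction: `m v` times `z` is in the identity component, and a nonzero
    -- `l`-torsion point is congruent to `0` modulo the power `e v`
    ∀ (S : Finset (NumberField.FinitePlace K)) (e t m : NumberField.FinitePlace K → ℕ),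
    (∀ v ∈ S, v 2 = 1 ∧ 1 ≤ e v ∧ 1 ≤ t v ∧ 1 ≤ m v ∧ m v ≤ G (t v) ∧
      (∀ k : ℤ, CommonMaximum v (x (m v * k) 0 0) (x 0 0 0)) ∧
      ∃ p q : Fin g → ℤ, (∃ i, ¬ (l : ℤ) ∣ p i ∨ ¬ (l : ℤ) ∣ q i) ∧
        ∀ u : ℤ, CongruentMod v (e v) (x 0 (u • p) (u • q)) (x 0 0 0)) →
    -- the height of 0 is bounded by the conductor
    Real.log (Height.mulHeight (x 0 0 0)) ≤
      σ * ∑ v ∈ S, (e v : ℝ) / (t v : ℝ) * Real.log (Ideal.absNorm v.maximalIdeal.asIdeal) →
    -- the order of `z` is at most `B`, or a multiple `M z`, `M <= B`, is in an abelian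
    -- subvariety `W`, not `0` and not the whole abelian variety, of bounded degree
    (∃ M : ℕ, 1 ≤ M ∧ M ≤ B ∧ InLattice τ ((M : ℂ) • z)) ∨
    ∃ W : Submodule ℂ (Fin g → ℂ), W ≠ ⊥ ∧ W ≠ ⊤ ∧ IsAbelianSubvariety τ W ∧
      (∃ M : ℕ, 1 ≤ M ∧ M ≤ B ∧ ∃ w ∈ W, InLattice τ ((M : ℂ) • z - w)) ∧
      ∃ k : ℕ, 1 ≤ k ∧ k ≤ B ∧ ∀ v : Fin g → ℂ,
        (∀ f : (Fin g → ℂ) → ℂ, IsThetaFunction τ k f → (∀ w ∈ W, f w = 0) →
          fderiv ℂ f 0 v = 0) → v ∈ W := by
  obtain ⟨n, hn⟩ := hs g σ G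
  obtain ⟨l, hl1, hl⟩ := Nat.exists_infinite_primes (n + 3)
  have hodd : Odd l := hl.odd_of_ne_two (by omega)
  refine ⟨l, hl, hodd, fun d => ?_⟩
  obtain ⟨c, hc, hcB⟩ := hn l hl hodd
  obtain ⟨B1, hB1⟩ := hcB d
  have he : Even (4 * l ^ 2) := ⟨2 * l ^ 2, by ring⟩
  have hlpos : 0 < l := hl.pos
  have he2 : 2 ≤ 4 * l ^ 2 := by
    have : 1 ≤ l ^ 2 := Nat.one_le_pow _ _ hlpos
    omega
  obtain ⟨B2, hB2⟩ := hz g (4 * l ^ 2) he he2
  refine ⟨max (max B1 (c * B2)) 1, ?_⟩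
  intro K _ _ hd φ τ hτ z hz' x hx hμ S e t m hS hH
  have h1 : ∃ N : ℕ, 0 < N ∧ Pool.Agent.THS.InLat τ (fun i => (N : ℂ) * z i) := by
    obtain ⟨N, hN, h⟩ := hz'
    exact ⟨N, hN, (inLat_iff τ z N).1 h⟩
  have h2 : ∀ i : Pool.Agent.SZG.Idx g, ∃ μ : ℂ, ∀ ab,
      φ (x i.1 i.2.1 i.2.2 ab)
        = μ * Pool.Agent.THS.Vab τ ab.1 ab.2 (Pool.Agent.SZG.gam τ z l i) := by
    rintro ⟨k, p, q⟩
    obtain ⟨μ, h⟩ := hμ k p q
    refine ⟨μ, fun ab => ?_⟩
    rw [gam_eq, theta_eq]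
    exact h ab
  have h3 : ∀ v ∈ S, v.val 2 = 1 ∧ 1 ≤ e v ∧ 1 ≤ t v ∧ 1 ≤ m v ∧ m v ≤ G (t v) ∧
      (∀ k : ℤ, Pool.Agent.SZG.CM v.val
        ((fun i : Pool.Agent.SZG.Idx g => x i.1 i.2.1 i.2.2) ((m v : ℤ) * k, 0, 0))
        ((fun i : Pool.Agent.SZG.Idx g => x i.1 i.2.1 i.2.2) 0)) ∧
      ∃ p q : Fin g → ℤ, (∃ i, ¬ (l : ℤ) ∣ p i ∨ ¬ (l : ℤ) ∣ q i) ∧
        ∀ u : ℤ, Pool.Agent.SZG.TC v.val ((Pool.Agent.THS.qv v ^ e v)⁻¹)
          ((fun i : Pool.Agent.SZG.Idx g => x i.1 i.2.1 i.2.2)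
            (u • ((0, p, q) : Pool.Agent.SZG.Idx g)))
          ((fun i : Pool.Agent.SZG.Idx g => x i.1 i.2.1 i.2.2) 0) := by
    intro v hv
    obtain ⟨ha, hb, hb2, hb3, hb4, hc, p, q, hpq, hd⟩ := hS v hv
    refine ⟨ha, hb, hb2, hb3, hb4, fun k => hc k, p, q, hpq, fun u => ?_⟩
    have h6 : (u • ((0, p, q) : Pool.Agent.SZG.Idx g)) = (0, u • p, u • q) := by
      simp
    rw [h6]
    exact hd u
  rcases hB1 K hd φ τ hτ z h1 (fun i => x i.1 i.2.1 i.2.2) (fun i => hx _ _ _) h2 S e t m h3 hH with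
    h | ⟨F, hF, hF'⟩
  · left
    obtain ⟨M, hM1, hM2, hM⟩ := h
    exact ⟨M, hM1, le_trans hM2 (le_trans (le_max_left _ _) (le_max_left _ _)),
      (inLat_iff τ z M).2 hM⟩
  · -- the case g = 0
    rcases Nat.eq_zero_or_pos g with hg | hg
    · subst hg
      left
      refine ⟨1, le_refl _, le_max_right _ _, ⟨0, 0, ?_⟩⟩
      funext i
      exact i.elim0
    have hcard : 0 < 2 ^ g * l ^ (2 * g) - n * l ^ (2 * g - 1) := by
      have h4 : l ^ (2 * g) = l * l ^ (2 * g - 1) := by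
        rw [← pow_succ']
        congr 1
        omega
      have h5 : 1 ≤ l ^ (2 * g - 1) := Nat.one_le_pow _ _ hlpos
      have h6 : 1 ≤ 2 ^ g := Nat.one_le_two_pow
      have h7 : n * l ^ (2 * g - 1) < 2 ^ g * l ^ (2 * g) := by
        rw [h4, ← mul_assoc]
        apply Nat.mul_lt_mul_of_pos_right _ h5
        nlinarith
      omega
    set j0 : Fin (2 ^ g * l ^ (2 * g) - n * l ^ (2 * g - 1)) := ⟨0, hcard⟩
    have hF0 : F j0 ≠ 0 := hF.ne_zero j0
    have hFR : F j0 ∈ Pool.Agent.ZES.RR τ (2 * (4 * l ^ 2)) := by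
      refine ⟨(hF' j0).1, fun w p q => ?_⟩
      have h3 := (hF' j0).2.1 w p q
      have h4 : (w + Pool.Agent.ZES.pr τ p q)
          = fun i => w i + ((p i : ℂ) + ∑ j, τ i j * (q j : ℂ)) := by
        funext i
        simp [Pool.Agent.ZES.pr]
      rw [h4, h3]
      congr 2
      push_cast
      ring
    set z' : Fin g → ℂ := (c : ℂ) • z with hz'def
    have hnat : ∀ k : ℕ, F j0 ((k : ℂ) • z') = 0 := fun k => (hF' j0).2.2 k
    obtain ⟨N, hN, ⟨P, Q, hPQ⟩⟩ := hz'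
    have hint : ∀ j : ℤ, F j0 (j • z') = 0 := by
      intro j
      -- j z' = (j + N s) z' - (period), with s >= 0
      set s : ℕ := j.natAbs with hs'
      have hjs : 0 ≤ j + (N : ℤ) * s := by
        have h8 : (s : ℤ) = |j| := by simp [hs']
        have h9 : (1 : ℤ) ≤ N := by exact_mod_cast hN
        have h10 : 0 ≤ (s : ℤ) := by positivity
        have h11 := neg_abs_le j
        nlinarith
      obtain ⟨r, hr⟩ := Int.eq_ofNat_of_zero_le hjs
      have h12 : ((r : ℕ) : ℂ) • z'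
          = j • z' + Pool.Agent.ZES.pr τ (fun i => (s : ℤ) * c * P i) (fun i => (s : ℤ) * c * Q i) := by
        funext i
        have h13 : (N : ℂ) * z i = (P i : ℂ) + ∑ j, τ i j * (Q j : ℂ) := by
          have := congrFun hPQ i
          simpa [period] using this
        have h14 : ((r : ℕ) : ℂ) = (j : ℂ) + (N : ℂ) * (s : ℂ) := by
          have : ((r : ℤ) : ℂ) = ((j + (N : ℤ) * s : ℤ) : ℂ) := by rw [hr]
          push_cast at this
          exact this
        have h15 : ∑ x : Fin g, τ i x * ((s : ℂ) * c * (Q x : ℂ))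
            = (s : ℂ) * c * ∑ x : Fin g, τ i x * (Q x : ℂ) := by
          rw [Finset.mul_sum]
          exact Finset.sum_congr rfl fun x _ => by ring
        have h21 : (j • z') i = (j : ℂ) * ((c : ℂ) * z i) := by
          rw [Pi.smul_apply, zsmul_eq_mul, hz'def, Pi.smul_apply, smul_eq_mul]
        have h22 : (((r : ℕ) : ℂ) • z') i = ((r : ℕ) : ℂ) * ((c : ℂ) * z i) := by
          rw [Pi.smul_apply, smul_eq_mul, hz'def, Pi.smul_apply, smul_eq_mul]
        rw [h22, Pi.add_apply, h21, Pool.Agent.ZES.pr]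
        push_cast
        rw [h14, h15]
        linear_combination ((s : ℂ) * c) * h13
      have h16 := hFR.2 (j • z') (fun i => (s : ℤ) * c * P i) (fun i => (s : ℤ) * c * Q i)
      rw [← h12, hnat r] at h16
      rcases mul_eq_zero.1 h16.symm with h17 | h17
      · exact absurd h17 (Complex.exp_ne_zero _)
      · exact h17
    have hex : ∃ w, F j0 w ≠ 0 := by
      by_contra hcon
      push Not at hcon
      exact hF0 (funext hcon)
    obtain ⟨W, hWtop, hWsub, ⟨M, hM1, hM2, u, hu, hMu⟩, k, hk1, hk2, hk⟩ :=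
      hB2 τ hτ z' (F j0) hFR hint hex
    have hMB : c * M ≤ max (max B1 (c * B2)) 1 :=
      le_trans (Nat.mul_le_mul_left c hM2) (le_trans (le_max_right _ _) (le_max_left _ _))
    have hMu' : InLattice τ (((c * M : ℕ) : ℂ) • z - u) := by
      rw [inLat_iff']
      have h18 : (((c * M : ℕ) : ℂ) • z - u) = M • z' - u := by
        funext i
        have h21 : (M • z') i = (M : ℂ) * ((c : ℂ) * z i) := by
          rw [Pi.smul_apply, nsmul_eq_mul, hz'def, Pi.smul_apply, smul_eq_mul]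
        rw [Pi.sub_apply, Pi.sub_apply, h21, Pi.smul_apply, smul_eq_mul]
        push_cast
        ring
      rw [h18]
      exact hMu
    by_cases hWbot : W = ⊥
    · left
      refine ⟨c * M, Nat.mul_pos hc hM1, hMB, ?_⟩
      have h19 : u = 0 := by
        rw [hWbot] at hu
        exact (Submodule.mem_bot ℂ).1 hu
      rw [h19, sub_zero] at hMu'
      exact hMu'
    · right
      refine ⟨W, hWbot, hWtop, (subav_iff τ W).1 hWsub,
        ⟨c * M, Nat.mul_pos hc hM1, hMB, u, hu, hMu'⟩, k, hk1, ?_, ?_⟩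
      · have h20 : B2 ≤ c * B2 := Nat.le_mul_of_pos_left B2 hc
        exact le_trans hk2 (le_trans h20 (le_trans (le_max_right _ _) (le_max_left _ _)))
      · intro v hv
        refine hk v fun f hf hf0 => hv f ((isTheta_iff τ k f).2 hf) fun w hw => ?_
        have := hf0 0 w hw
        simpa using this

end Pool.Agent.SZG.H57Comb
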