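import Pool.Agent.SZG.StmtsF
import Pool.Agent.SZG.StmtsD3
import Pool.Agent.Helper89_THS.Fin2
import Pool.Agent.Helper27_SZG.RGI
import Pool.Agent.Helper27_SZG.SEL
import Pool.Agent.Helper27_SZG.SWC
import Pool.Agent.Helper92_SZG.QSA
import Pool.Agent.Helper92_SZG.PLG
import Pool.Agent.Helper92_SZG.THG
import Pool.Agent.Helper94_SZG.WXC
import Pool.Agent.Helper94_SZG.PFG
import Pool.Agent.Helper94_SZG.TDF
import Pool.Agent.Helper40_SZG.SUM
import Pool.Agent.Helper40_SZG.SHO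
import Pool.Agent.Helper40_SZG.MNP
import Pool.Agent.Helper40_SZG.SCG
import Pool.Agent.Helper77_SZG.WTX
import Pool.Agent.Helper49_SZG.INV
import Pool.Agent.Helper49_SZG.FQP
import Pool.Agent.Helper49_SZG.FL2
import Pool.Agent.Helper91_SZG.DBL
import Pool.Agent.Helper91_SZG.RBD
import Pool.Agent.Helper95_SZG.ZKS
import Pool.Agent.Helper95_SZG.FEX
import Pool.Agent.Helper65_SZG.ORB
import Pool.Agent.Helper41_SZG.PRG
import Pool.Agent.Helper41_SZG.DBW
import Pool.Agent.Helper41_SZG.DTV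
import Pool.Agent.Helper82_SZG.MPB
import Pool.Agent.Helper67_SZG.MPP
import Pool.Agent.Helper67_SZG.HT2
import Pool.Agent.Helper25_SZG.TEN
import Pool.Agent.Helper38_SZG.XUB
import Pool.Agent.Helper62_SZG.RAL
import Pool.Agent.Helper45_SZG.TCS
import Pool.Agent.Helper3_SZG.CAB
import Pool.Agent.Helper81_SZG.TCG
import Pool.Agent.Helper98_SZG.TAU
import Pool.Agent.Helper26_SZG.RCG
import Pool.Agent.Helper9_SZG.REC
import Pool.Agent.Helper5_SZG.RH2
import Pool.Agent.Helper28_SZG.NFO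
import Pool.Agent.Helper68_SZG.FNB
import Pool.Agent.Helper64_SZG.LOR
import Pool.Agent.Helper97_SZG.LSH
import Pool.Agent.Helper78_SZG.QCS
import Pool.Agent.Helper10_SZG.DSV
import Pool.Agent.Helper43_SZG.WPR
import Pool.Agent.Helper43_SZG.FL1
import Pool.Agent.Helper47_SZG.DAL
import Pool.Agent.Helper47_SZG.QFF
import Pool.Agent.Helper14_SZG.RKD
import Pool.Agent.Helper76_SZG.FDF
import Pool.Agent.Helper50_SZG.ALT
import Pool.Agent.Helper71_SZG.NOR
import Pool.Agent.Helper11_SZG.ASZ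

namespace Pool.Agent.SZG.H57

open Pool.Agent.THS

theorem fin1 (tbg : QsaStmt → WxcStmt → DblStmt → PrgStmt → TbgStmt)
    (caa : TenStmt → XubStmt → WxcStmt → OrbStmt → QsaStmt → CaaStmt)
    (rle : QsaStmt → WxcStmt → RleStmt) : SzgStatement := by
  -- THS part
  have hTBD : TbdStatement :=
    Pool.Agent.Helper92_THS.tbd THS.H77.coe THS.H27.gso THS.H56.pis
  have hTLD : TldStatement := THS.H21.tld hTBD
  have hTPE : TpeStatement := THS.H65.tpe
  have hPRD : PrdStatement := THS.H53.prd hTBD THS.H90.bij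
  have hRRE : RreStatement := THS.H62.rre hPRD hTPE
  have hORT : OrtStatement := THS.H70.ort
  have hINV : InvStatement := THS.H62.inv hRRE hORT
  have hTCP : TcpStatement := THS.H49.tcp hTPE
  have hTNV : TnvStatement := THS.H16.tnv hTBD THS.H53.grd
  have hTCN : TcnStatement := THS.H87.tcn hPRD hTLD hTNV THS.H10.lprF
  have hKMO' : KmoStatement :=
    THS.H2.kmo hPRD hTPE hTLD hTNV hTCN THS.H91.sqm THS.H86.lin
  have hKLA : KlaStatement := THS.H44.kla hKMO' hTPE hTNV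
  have hTOU : TouStatement := THS.H60.tou hRRE hINV hTCP hTCN hKLA
  have hLAR : LarStatement := THS.H49.lar hORT
  have hLNA : LnaStatement := THS.H25.lna hORT
  have hHCP : HcpStatement := THS.H77.hcp THS.H6.hfs
  have hHTK : HtkStatement := Pool.Agent.Helper92_THS.htk hHCP hLAR hLNA THS.H41.prb
  have hHXK : HxkStatement := THS.H41.hxk hHCP hORT
  have hHTZ : HtzStatement := THS.H49.htz hHCP
  have hHXB : HxbStatement := THS.H49.hxb hHTK hHXK hHTZ
  have hPIG : PigStatement := THS.H62.pig hHXB (THS.H27.npp THS.H49.nuf)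
  have hRQI : RqiStatement := THS.H62.rqi hORT
  have hTHD : ThdStatement :=
    THS.H44.thd hTOU (THS.H33.sca hRQI) (THS.H21.pxv hRQI) THS.H94.spe (THS.H65.nsd hRQI)
  have hFOI : FoiStatement := THS.H44.foi hORT
  have hSHM : ShmStatement := THS.H27.shm
  -- block W
  have hRGI : RgiStmt := H27.rgi hORT
  have hQSA : QsaStmt := H92.qsa
  have hWXC : WxcStmt := H94.wxc
  have hWTX : WtxStmt := H77.wtx hQSA
  have hDBL : DblStmt := H91.dbl hLAR hLNA
  have hORB : OrbStmt := H65.orb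
  have hPRG : PrgStmt := H41.prg hORB
  have hTBG : TbgStmt := tbg hQSA hWXC hDBL hPRG
  have hMPB : MpbStmt := H82.mpb hQSA hWXC hTBG
  have hMPP : MppStmt := H67.mpp hQSA
  -- block M
  have hTEN : TenStmt := H25.ten hRGI hFOI
  have hXUB : XubStmt := H38.xub hTEN hWXC hTBG
  have hCAA : CaaStmt := caa hTEN hXUB hWXC hORB hQSA
  have hTCS : TcsStmt := H45.tcs
  have hCAB : CabStmt := H3.cab hCAA hTCS hXUB hWXC
  have hTCG : TcgStmt := H81.tcg hRGI hTCS hXUB hWXC
  have hTAU : TauStmt := H98.tau hTCG hWXC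
  have hRCG : RcgStmt := H26.rcg
  have hREC : RecStmt := H9.rec hRCG
  have hRH2 : Rh2Stmt := H5.rh2 hTEN hXUB hTAU hWXC hRCG
  have hNFO : NfoStmt := H28.nfo hTCG hTAU hRCG hREC hRH2 hWXC
  have hRLE : RleStmt := rle hQSA hWXC
  have hFNB : FnbStmt := H68.fnb hWXC
  have hFEX : FexStmt := H95.fex hRGI hXUB hWXC hFNB THS.H26.mxv hSHM
  -- block S
  have hSEL : SelStmt := H27.sel
  have hSHO : ShoStmt := H40.sho hSEL H40.sum
  have hRAL : RalStmt := H62.ral H27.swc H49.inv H95.zks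
  have hLSH : LshStmt := H97.lsh hFNB hFEX hSEL hSHO hSHM
  have hRBD : RbdStmt := H91.rbd hXUB hWXC
  have hLOR : LorStmt := H64.lor hNFO hRLE hLSH hRBD hRGI hRAL hQSA
  -- block E
  have hDSV : DsvStmt := H10.dsv hLOR H78.qcs hMPP hWXC H40.mnp
  have hDTV : DtvStmt := H41.dtv hMPB H41.dbw
  have hHT2 : Ht2Stmt := H67.ht2 hRGI hHCP
  have hDAL : DalStmt := H47.dal hDSV hDTV H43.wpr hWTX hCAB H94.pfg THS.H49.qvr
  have hRKD : RkdStmt := H14.rkd THS.H65.evb
  -- block F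
  have hSCG : ScgStmt := H40.scg hRGI H92.plg H47.qff
  have hTHG : ThgStmt := H92.thg hTOU hSCG
  have hALT : AltStmt := H50.alt (H49.fqp hTOU) (H76.fdf (H94.tdf hTBD)) (H43.fl1 hTPE)
    (H49.fl2 hTBD THS.H53.grd) THS.H65.evb
  have hNOR : NorStmt := H71.nor hTHD hPIG THS.H42.prp
  exact H11.asz hDAL hTHG hALT hNOR hHT2 hRKD

end Pool.Agent.SZG.H57
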